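import Pool.Agent.H92.HC.Expl

set_option autoImplicit false

/-!
For most `t` in `(T, 2T]` the sign of `Z_σ(t) = Re (e^{iθ(t)} ζ(σ+it))` (Hardy's function for
`σ = 1/2`) does not change when `σ` moves by at most `δ/log T`, nor when `σ` moves from
`1/2 + a/log T` to within `δ/log T` of `1/2 - a/log T`; the exceptional set has measure
`O(T/k)` for `δ = e^{-C k log k}`.
-/

namespace Pool.Agent.Results.MP_07a3df_nt.Continuity

open MeasureTheory

/-- `e^{iθ(t)}`, `θ` the Riemann-Siegel theta function: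
`π^{-it/2} Γ(1/4 + it/2) / |Γ(1/4 + it/2)|` -/
noncomputable def expTheta (t : ℝ) : ℂ :=
  (Real.pi : ℂ) ^ (-(Complex.I * t / 2)) * Complex.Gamma (1 / 4 + Complex.I * t / 2) /
    (‖Complex.Gamma (1 / 4 + Complex.I * t / 2)‖ : ℂ)

/-- `Z_σ(t) = Re (e^{iθ(t)} ζ(σ + it))`; `Z_{1/2}` is Hardy's function `Z` -/
noncomputable def Zline (σ t : ℝ) : ℝ :=
  (expTheta t * riemannZeta ((σ : ℂ) + t * Complex.I)).re

/-- There is an absolute constant `C` such that for all integers `k ≥ 1`, all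
`T ≥ exp (exp (C k log k))` and all real `a` with `a² ≤ k` the following holds outside a set `S` of
measure at most `C T / k`: for all `t` in `(T, 2T]` the numbers `Z_{1/2 + a/log T}(t)` and
`Z_{1/2 + b/log T}(t)` are nonzero and of the same sign for every real `b` with
`|b - a| ≤ exp (-C k log k)` or `|b + a| ≤ exp (-C k log k)`. -/
theorem result : ∃ C : ℝ, 0 < C ∧ ∀ k : ℕ, 1 ≤ k → ∀ T : ℝ,
    Real.exp (Real.exp (C * k * Real.log k)) ≤ T → ∀ a : ℝ, a ^ 2 ≤ k →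
    ∃ S : Set ℝ, MeasurableSet S ∧ volume S ≤ ENNReal.ofReal (C / k * T) ∧
      ∀ t : ℝ, T < t → t ≤ 2 * T → t ∉ S → ∀ b : ℝ,
        (|b - a| ≤ Real.exp (-(C * k * Real.log k)) ∨
          |b + a| ≤ Real.exp (-(C * k * Real.log k))) →
        0 < Zline (1 / 2 + a / Real.log T) t * Zline (1 / 2 + b / Real.log T) t := by
  have h : ∀ σ t : ℝ, Zline σ t = Pool.Agent.H92.HC.Zl σ t := fun σ t => rfl
  obtain ⟨C, hC, hmain⟩ := Pool.Agent.H92.HC.sign_expl
  refine ⟨C, hC, ?_⟩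
  intro k hk T hT a ha
  obtain ⟨S, hS1, hS2, hS3⟩ := hmain k hk T hT a ha
  refine ⟨S, hS1, hS2, ?_⟩
  intro t ht1 ht2 htS b hb
  rw [h, h]
  exact hS3 t ⟨ht1, ht2⟩ htS b hb

end Pool.Agent.Results.MP_07a3df_nt.Continuity
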