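import Pool.Agent.H92.HD.Fin

set_option autoImplicit false

/-!
The `k`-th derivative of Hardy's function `Z` is positive on half of `(T, 2T]` and negative on half
of `(T, 2T]`, up to `O(T (k^{-1/3} + (k/log T)^{2/3}))`.
-/

namespace Pool.Agent.Results.MP_07a3df_nt.Derivatives

open MeasureTheory

/-- `e^{iθ(t)}`, `θ` the Riemann-Siegel theta function:
`π^{-it/2} Γ(1/4 + it/2) / |Γ(1/4 + it/2)|` -/
noncomputable def expTheta (t : ℝ) : ℂ :=
  (Real.pi : ℂ) ^ (-(Complex.I * t / 2)) * Complex.Gamma (1 / 4 + Complex.I * t / 2) /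
    (‖Complex.Gamma (1 / 4 + Complex.I * t / 2)‖ : ℂ)

/-- Hardy's function `Z(t) = e^{iθ(t)} ζ(1/2 + it)`, a real number for real `t`, written as its own
real part -/
noncomputable def hardyZ (t : ℝ) : ℝ :=
  (expTheta t * riemannZeta (1 / 2 + t * Complex.I)).re

/-- There is an absolute constant `C` such that for all integers `k ≥ 1` and all `T ≥ 2` each of the
two sets `{T < t ≤ 2T : Z^{(k)}(t) > 0}` and `{T < t ≤ 2T : Z^{(k)}(t) < 0}` has measure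
`T/2 + O(T (k^{-1/3} + (k/log T)^{2/3}))`. -/
theorem result : ∃ C : ℝ, 0 < C ∧ ∀ k : ℕ, 1 ≤ k → ∀ T : ℝ, 2 ≤ T →
    |volume.real {t : ℝ | (T < t ∧ t ≤ 2 * T) ∧ 0 < iteratedDeriv k hardyZ t} - T / 2| ≤
      C * ((k : ℝ) ^ (-(1 / 3) : ℝ) + ((k : ℝ) / Real.log T) ^ (2 / 3 : ℝ)) * T ∧
    |volume.real {t : ℝ | (T < t ∧ t ≤ 2 * T) ∧ iteratedDeriv k hardyZ t < 0} - T / 2| ≤
      C * ((k : ℝ) ^ (-(1 / 3) : ℝ) + ((k : ℝ) / Real.log T) ^ (2 / 3 : ℝ)) * T := by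
  have h : hardyZ = Pool.Agent.H92.HD.Zr := by
    funext t
    have h1 : (1 / 2 + t * Complex.I : ℂ) = Pool.Agent.H77.HZ.pt (1 / 2) t := by
      unfold Pool.Agent.H77.HZ.pt
      push_cast
      rfl
    show (expTheta t * riemannZeta (1 / 2 + t * Complex.I)).re = _
    rw [h1]
    rfl
  rw [h]
  exact ⟨Pool.Agent.H92.HD.Cd, Pool.Agent.H92.HD.Cd_pos, fun k hk T hT =>
    Pool.Agent.H92.HD.deriv_signs hk hT⟩

end Pool.Agent.Results.MP_07a3df_nt.Derivatives
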