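import Pool.Agent.H77.HZ.Fin

set_option autoImplicit false

/-!
The function `Re (e^{iθ(t)} ζ(σ+it))`, which is Hardy's function `Z(t)` for `σ = 1/2`, is positive on
half of `(T, 2T]` and negative on half of `(T, 2T]`, up to `O(T (log A)/A)`, on every line with
`|σ - 1/2| ≥ A/log T`.
-/

namespace Pool.Agent.Results.MP_07a3df_nt.NearLines

open MeasureTheory

/-- `e^{iθ(t)}`, `θ` the Riemann-Siegel theta function:
`π^{-it/2} Γ(1/4 + it/2) / |Γ(1/4 + it/2)|` -/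
noncomputable def expTheta (t : ℝ) : ℂ :=
  (Real.pi : ℂ) ^ (-(Complex.I * t / 2)) * Complex.Gamma (1 / 4 + Complex.I * t / 2) /
    (‖Complex.Gamma (1 / 4 + Complex.I * t / 2)‖ : ℂ)

/-- `Z_σ(t) = Re (e^{iθ(t)} ζ(σ + it))`; `Z_{1/2}` is Hardy's function `Z` -/
noncomputable def Zline (σ t : ℝ) : ℝ :=
  (expTheta t * riemannZeta ((σ : ℂ) + t * Complex.I)).re

/-- There is an absolute constant `C` such that for all `A ≥ 2`, `T ≥ e^A` and all `σ ≥ -4` with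
`|σ - 1/2| ≥ A/log T`, each of the two sets `{T < t ≤ 2T : Z_σ(t) > 0}` and
`{T < t ≤ 2T : Z_σ(t) < 0}` has measure `T/2 + O(T (log A)/A)`. -/
theorem result : ∃ C : ℝ, 0 < C ∧ ∀ A T σ : ℝ, 2 ≤ A → Real.exp A ≤ T →
    A / Real.log T ≤ |σ - 1 / 2| → -4 ≤ σ →
    |volume.real {t : ℝ | (T < t ∧ t ≤ 2 * T) ∧ 0 < Zline σ t} - T / 2| ≤
      C * (Real.log A / A) * T ∧
    |volume.real {t : ℝ | (T < t ∧ t ≤ 2 * T) ∧ Zline σ t < 0} - T / 2| ≤
      C * (Real.log A / A) * T := by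
  refine ⟨20000 + 16 * Pool.Agent.H77.HZ.Cm, ?_, ?_⟩
  · have := Pool.Agent.H77.HZ.Cm_pos
    positivity
  · intro A T σ hA hT hσ hσ4
    exact Pool.Agent.H77.HZ.near_signs hA hT hσ hσ4

end Pool.Agent.Results.MP_07a3df_nt.NearLines
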