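import Pool.Agent.H77.HZ.Sect

set_option autoImplicit false

/-!
The sections `∑_{n ≤ N} a_n n^{-σ} cos (θ(t) - t log n)` of the Riemann-Siegel sum of Hardy's
function are positive on half of `(T, 2T]` and negative on half of it, up to `O(T (log 2N)/log T)`.
-/

namespace Pool.Agent.Results.MP_07a3df_nt.Sections

open MeasureTheory

/-- `e^{iθ(t)}`, `θ` the Riemann-Siegel theta function:
`π^{-it/2} Γ(1/4 + it/2) / |Γ(1/4 + it/2)|` -/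
noncomputable def expTheta (t : ℝ) : ℂ :=
  (Real.pi : ℂ) ^ (-(Complex.I * t / 2)) * Complex.Gamma (1 / 4 + Complex.I * t / 2) /
    (‖Complex.Gamma (1 / 4 + Complex.I * t / 2)‖ : ℂ)

/-- `Z_N(t) = 2 Re (e^{iθ(t)} ∑_{n ≤ N} a_n n^{-σ-it})`; for real `a_n` it is
`2 ∑_{n ≤ N} a_n n^{-σ} cos (θ(t) - t log n)` -/
noncomputable def Zsection (a : ℕ → ℂ) (N : ℕ) (σ t : ℝ) : ℝ :=
  2 * (expTheta t * ∑ n ∈ Finset.Icc 1 N, a n * (n : ℂ) ^ (-((σ : ℂ) + t * Complex.I))).re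

/-- For all complex `a_n` with `a_1 = 1` and `|a_n| ≤ 1`, all `N ≥ 1`, `0 ≤ σ ≤ 5` and `T ≥ 2`, each
of the sets `{T < t ≤ 2T : Z_N(t) > 0}` and `{T < t ≤ 2T : Z_N(t) < 0}` has measure `T/2` up to
`1400 T (1 + log N)/log T`. -/
theorem result (a : ℕ → ℂ) (ha1 : a 1 = 1) (ha : ∀ n, ‖a n‖ ≤ 1) (N : ℕ) (hN : 1 ≤ N)
    (σ T : ℝ) (hσ : 0 ≤ σ) (hσ5 : σ ≤ 5) (hT : 2 ≤ T) :
    |volume.real {t : ℝ | (T < t ∧ t ≤ 2 * T) ∧ 0 < Zsection a N σ t} - T / 2| ≤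
      1400 * T * (1 + Real.log N) / Real.log T ∧
    |volume.real {t : ℝ | (T < t ∧ t ≤ 2 * T) ∧ Zsection a N σ t < 0} - T / 2| ≤
      1400 * T * (1 + Real.log N) / Real.log T := by
  have h := Pool.Agent.H77.HZ.DP_signs (a := a) (N := N) hT ha ha1 hN hσ hσ5
  have e1 : {t : ℝ | (T < t ∧ t ≤ 2 * T) ∧ 0 < Zsection a N σ t} =
      {t | t ∈ Set.Ioc T (2 * T) ∧ 0 < (Pool.Agent.H77.HZ.eTh t *
        Pool.Agent.H77.HZ.DP a N (Pool.Agent.H77.HZ.pt σ t)).re} := by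
    ext t
    have : 0 < Zsection a N σ t ↔ 0 < (Pool.Agent.H77.HZ.eTh t *
        Pool.Agent.H77.HZ.DP a N (Pool.Agent.H77.HZ.pt σ t)).re :=
      mul_pos_iff_of_pos_left (by norm_num)
    exact and_congr Iff.rfl this
  have e2 : {t : ℝ | (T < t ∧ t ≤ 2 * T) ∧ Zsection a N σ t < 0} =
      {t | t ∈ Set.Ioc T (2 * T) ∧ (Pool.Agent.H77.HZ.eTh t *
        Pool.Agent.H77.HZ.DP a N (Pool.Agent.H77.HZ.pt σ t)).re < 0} := by
    ext t
    have : Zsection a N σ t < 0 ↔ (Pool.Agent.H77.HZ.eTh t *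
        Pool.Agent.H77.HZ.DP a N (Pool.Agent.H77.HZ.pt σ t)).re < 0 := by
      show 2 * (Pool.Agent.H77.HZ.eTh t *
        Pool.Agent.H77.HZ.DP a N (Pool.Agent.H77.HZ.pt σ t)).re < 0 ↔ _
      constructor <;> intro h <;> linarith
    exact and_congr Iff.rfl this
  rw [e1, e2]
  exact h

end Pool.Agent.Results.MP_07a3df_nt.Sections
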